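import Pool.Agent.AD.G.Defs
import Pool.Agent.AD.Cone
import Pool.Agent.H13.SM.Inv

/-!
# AD P Bridge: algebraic sections of `S^(m,m) Ω_X (-1)` as analytic bivector forms

* `conTan_of_tan`: the derivative of a holomorphic curve in the cone is a tangent vector of the cone.
* `toBForm`: the section as a `BForm` on the cone in the Euclidean space.
* `noZero_of_generates`: generating sections have no common zero on pairs of independent tangent vectors.
-/

set_option autoImplicit false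

open MvPolynomial Topology Filter

namespace Pool.Agent.AD.P

open Pool.Agent.H36.BP (EN)
open Pool.Agent.H14.PP (IsCone CurveAt Tan)
open Pool.Agent.H13.SM (conTan cone Inv_hasFDerivAt_eval)
open Pool.Agent.H17EF (LE coneE)
open Pool.Agent.AD.G (pl BSec Generates)

variable {N : ℕ} {P : Ideal (MvPolynomial (Fin (N + 1)) ℂ)}

theorem conTan_of_tan {x v : EN N} (h : Tan (coneE P) x v) : (LE N).symm v ∈ conTan P ((LE N).symm x) := by
  obtain ⟨F, ⟨hF, hFX⟩, h0, h1⟩ := h
  intro Q hQ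
  have h2 : HasDerivAt (fun z => (LE N).symm (F z)) ((LE N).symm (deriv F 0)) 0 :=
    ((LE N).symm : EN N →L[ℂ] (Fin (N + 1) → ℂ)).hasFDerivAt.comp_hasDerivAt 0 hF.differentiableAt.hasDerivAt
  have h3 := (Inv_hasFDerivAt_eval Q ((LE N).symm (F 0))).comp_hasDerivAt 0 h2
  have h4 : HasDerivAt ((fun y : Fin (N + 1) → ℂ => eval y Q) ∘ fun z => (LE N).symm (F z)) 0 0 := by
    refine (hasDerivAt_const (0 : ℂ) (0 : ℂ)).congr_of_eventuallyEq ?_
    filter_upwards [hFX] with z hz
    exact hz.2 Q hQ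
  have h5 := h3.unique h4
  rw [h0, h1] at h5
  simp only [sum_apply, FunLike.coe_smul, Pi.smul_apply, ContinuousLinearMap.proj_apply, smul_eq_mul] at h5
  rw [← h5]
  exact Finset.sum_congr rfl fun i _ => mul_comm _ _

theorem eval_smul_of_homog {ι : Type} [Fintype ι] {d : ℕ} {Q : MvPolynomial ι ℂ} (hQ : Q.IsHomogeneous d) (c : ℂ)
    (x : ι → ℂ) : eval (c • x) Q = c ^ d * eval x Q := by
  rw [eval_eq', eval_eq', Finset.mul_sum]
  refine Finset.sum_congr rfl fun m hm => ?_
  have h1 : ∏ i, (c • x) i ^ m i = c ^ d * ∏ i, x i ^ m i := by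
    simp only [Pi.smul_apply, smul_eq_mul, mul_pow, Finset.prod_mul_distrib]
    rw [Finset.prod_pow_eq_pow_sum]
    have h2 := hQ (mem_support_iff.1 hm)
    rw [Finsupp.weight_apply, Finsupp.sum_fintype _ _ (by simp)] at h2
    simp only [Pi.one_apply, smul_eq_mul, mul_one] at h2
    rw [h2]
  rw [h1]
  ring

theorem pl_comb {ι R : Type*} [CommRing R] (v w : ι → R) (a b c e : R) :
    pl (a • v + b • w) (c • v + e • w) = (a * e - b * c) • pl v w := by
  funext p
  simp only [pl, Pi.add_apply, Pi.smul_apply, smul_eq_mul]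
  ring

theorem exists_ne {x : EN N} (hx : x ∈ coneE P) : ∃ i, (LE N).symm x i ≠ 0 := by
  by_contra h
  push Not at h
  exact hx.1 (funext h)

theorem det_law {m : ℕ} (Ω : BSec P m) {x : Fin (N + 1) → ℂ} (hx : x ∈ cone P) {v w : Fin (N + 1) → ℂ} (hv : v ∈ conTan P x) (hw : w ∈ conTan P x)
    (a b c e : ℂ) : Ω.toFun x (a • v + b • w) (c • v + e • w) = (a * e - b * c) ^ m * Ω.toFun x v w := by
  obtain ⟨i, hi⟩ : ∃ i, x i ≠ 0 := by
    by_contra h
    push Not at h
    exact hx.1 (funext h)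
  obtain ⟨k, A, hA, h⟩ := Ω.regular i
  have h1 := h x hx _ ((conTan P x).add_mem ((conTan P x).smul_mem a hv) ((conTan P x).smul_mem b hw)) _
    ((conTan P x).add_mem ((conTan P x).smul_mem c hv) ((conTan P x).smul_mem e hw))
  have h2 := h x hx v hv w hw
  rw [pl_comb, eval_smul_of_homog (hA.map _), ← h2] at h1
  have h3 : x i ^ k ≠ 0 := pow_ne_zero _ hi
  apply mul_left_cancel₀ h3
  rw [h1]
  ring

/-- the evaluation of a linear map is analytic -/
theorem analyticAt_fderiv_apply {E F G : Type*} [NormedAddCommGroup E] [NormedSpace ℂ E] [NormedAddCommGroup F] [NormedSpace ℂ F] [CompleteSpace F]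
    [NormedAddCommGroup G] [NormedSpace ℂ G] {φ : E → F} {a : G → E} {b : G → E} {p : G} (hφ : AnalyticAt ℂ φ (a p)) (ha : AnalyticAt ℂ a p)
    (hb : AnalyticAt ℂ b p) : AnalyticAt ℂ (fun y => fderiv ℂ φ (a y) (b y)) p := by
  have h1 : AnalyticAt ℂ (fun y => (fderiv ℂ φ (a y), b y)) p := (hφ.fderiv.comp ha).prod hb
  have h2 := (ContinuousLinearMap.id ℂ (E →L[ℂ] F)).analyticAt_bilinear (fderiv ℂ φ (a p), b p)
  exact AnalyticAt.comp (f := fun y => (fderiv ℂ φ (a y), b y)) h2 h1

theorem analyticAt_eval_map {ι G : Type} [Fintype ι] [NormedAddCommGroup G] [NormedSpace ℂ G] {κ : Type} [Fintype κ] (A : MvPolynomial κ (MvPolynomial ι ℂ))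
    {x : G → ι → ℂ} {y : G → κ → ℂ} {p : G} (hx : AnalyticAt ℂ x p) (hy : AnalyticAt ℂ y p) :
    AnalyticAt ℂ (fun t => eval (y t) (map (eval (x t)) A)) p := by
  have hx' : ∀ i, AnalyticAt ℂ (fun t => x t i) p := fun i => (analyticAt_pi_iff.1 hx) i
  have hy' : ∀ i, AnalyticAt ℂ (fun t => y t i) p := fun i => (analyticAt_pi_iff.1 hy) i
  have h1 : (fun t => eval (y t) (map (eval (x t)) A)) = fun t => ∑ d ∈ A.support, eval (x t) (coeff d A) * ∏ i, y t i ^ d i := by
    funext t
    rw [eval_map, eval₂_eq']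
  rw [h1]
  refine Finset.analyticAt_fun_sum _ fun d _ => ?_
  refine AnalyticAt.mul ?_ (Finset.analyticAt_fun_prod _ fun i _ => (hy' i).pow _)
  have h2 := AnalyticAt.aeval_mvPolynomial hx' (coeff d A)
  refine h2.congr (Eventually.of_forall fun t => ?_)
  show aeval (x t) (coeff d A) = eval (x t) (coeff d A)
  exact congrArg (fun f : MvPolynomial ι ℂ →+* ℂ => f (coeff d A)) (MvPolynomial.coe_aeval_eq_eval (x t))

/-- **The section as a form on the cone in the Euclidean space.** -/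
noncomputable def toBForm {m : ℕ} (n : ℕ) (Ω : BSec P m) : BForm n (coneE P) m where
  toFun x v w := Ω.toFun ((LE N).symm x) ((LE N).symm v) ((LE N).symm w)
  add_smul x hx v w hv hw a b := by
    rw [map_add, map_add, map_smul, map_smul]
    exact Ω.add_smul _ hx _ (conTan_of_tan hv) _ (conTan_of_tan hw) a b
  det x hx v w hv hw a b c e := by
    rw [map_add, map_add, map_smul, map_smul, map_smul, map_smul]
    exact det_law Ω hx (conTan_of_tan hv) (conTan_of_tan hw) a b c e
  scale x hx v w hv hw c hc := by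
    rw [map_smul, map_smul, map_smul]
    exact Ω.scale _ hx _ (conTan_of_tan hv) _ (conTan_of_tan hw) c hc
  analytic φ p u w hφ hφX := by
    have hpX : φ p ∈ coneE P := hφX.self_of_nhds
    obtain ⟨i, hi⟩ := exists_ne hpX
    obtain ⟨k, A, -, h⟩ := Ω.regular i
    have hL : ∀ {G : Type} [NormedAddCommGroup G] [NormedSpace ℂ G] {f : G → EN N} {q : G}, AnalyticAt ℂ f q →
        AnalyticAt ℂ (fun y => (LE N).symm (f y)) q := fun hf => ((LE N).symm : EN N →L[ℂ] (Fin (N + 1) → ℂ)).analyticAt _ |>.comp hf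
    have hx : AnalyticAt ℂ (fun y : Vd n × Vd n × Vd n => (LE N).symm (φ y.1)) (p, u, w) :=
      hL (AnalyticAt.comp (g := φ) (f := fun y : Vd n × Vd n × Vd n => y.1) hφ analyticAt_fst)
    have h21 : AnalyticAt ℂ (fun y : Vd n × Vd n × Vd n => y.2.1) (p, u, w) := analyticAt_fst.comp analyticAt_snd
    have h22 : AnalyticAt ℂ (fun y : Vd n × Vd n × Vd n => y.2.2) (p, u, w) := analyticAt_snd.comp analyticAt_snd
    have hv : AnalyticAt ℂ (fun y : Vd n × Vd n × Vd n => (LE N).symm (fderiv ℂ φ y.1 y.2.1)) (p, u, w) :=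
      hL (analyticAt_fderiv_apply (a := fun y : Vd n × Vd n × Vd n => y.1) (b := fun y => y.2.1) hφ analyticAt_fst h21)
    have hw : AnalyticAt ℂ (fun y : Vd n × Vd n × Vd n => (LE N).symm (fderiv ℂ φ y.1 y.2.2)) (p, u, w) :=
      hL (analyticAt_fderiv_apply (a := fun y : Vd n × Vd n × Vd n => y.1) (b := fun y => y.2.2) hφ analyticAt_fst h22)
    have hpl : AnalyticAt ℂ (fun y : Vd n × Vd n × Vd n => pl ((LE N).symm (fderiv ℂ φ y.1 y.2.1)) ((LE N).symm (fderiv ℂ φ y.1 y.2.2))) (p, u, w) := by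
      refine analyticAt_pi_iff.2 fun q => ?_
      have hv' := fun j => (analyticAt_pi_iff.1 hv) j
      have hw' := fun j => (analyticAt_pi_iff.1 hw) j
      exact ((hv' q.1).mul (hw' q.2)).sub ((hv' q.2).mul (hw' q.1))
    have hE := analyticAt_eval_map A hx hpl
    have hxi : AnalyticAt ℂ (fun y : Vd n × Vd n × Vd n => (LE N).symm (φ y.1) i ^ k) (p, u, w) := ((analyticAt_pi_iff.1 hx) i).pow k
    have hne : (LE N).symm (φ (p, u, w).1) i ^ k ≠ 0 := pow_ne_zero _ hi
    refine (hE.div hxi hne).congr ?_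
    have hc : Tendsto (fun y : Vd n × Vd n × Vd n => y.1) (𝓝 (p, u, w)) (𝓝 p) := continuous_fst.tendsto _
    filter_upwards [hc.eventually (hφX.eventually_nhds.and hφ.eventually_analyticAt), hxi.continuousAt.eventually_ne hne] with y hy hyi
    obtain ⟨hyX, hyφ⟩ := hy
    have htan : ∀ v : Vd n, Tan (coneE P) (φ y.1) (fderiv ℂ φ y.1 v) := by
      intro v
      have h1 : AnalyticAt ℂ (fun t : ℂ => y.1 + t • v) 0 := by fun_prop
      have h2 : (fun t : ℂ => y.1 + t • v) 0 = y.1 := by simp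
      have h3 : AnalyticAt ℂ φ ((fun t : ℂ => y.1 + t • v) 0) := by rw [h2]; exact hyφ
      refine ⟨fun t => φ (y.1 + t • v), ⟨AnalyticAt.comp (g := φ) (f := fun t : ℂ => y.1 + t • v) h3 h1, ?_⟩, by simp, ?_⟩
      · have h4 : Tendsto (fun t : ℂ => y.1 + t • v) (𝓝 0) (𝓝 y.1) := by
          have := h1.continuousAt.tendsto
          rwa [zero_smul, add_zero] at this
        exact h4.eventually hyX
      · have h5 : HasDerivAt (fun t : ℂ => y.1 + t • v) v 0 := by
          have := ((hasDerivAt_id (0 : ℂ)).smul_const v).const_add y.1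
          simpa using this
        have h6 : HasFDerivAt φ (fderiv ℂ φ y.1) ((fun t : ℂ => y.1 + t • v) 0) := by
          rw [h2]
          exact hyφ.differentiableAt.hasFDerivAt
        exact (h6.comp_hasDerivAt 0 h5).deriv
    have h7 := h _ hyX.self_of_nhds _ (conTan_of_tan (htan y.2.1)) _ (conTan_of_tan (htan y.2.2))
    show eval _ _ / ((LE N).symm (φ y.1) i ^ k) = _
    rw [← h7]
    exact mul_div_cancel_left₀ _ hyi

theorem noZero_of_generates {m J n : ℕ} {Ω : Fin J → BSec P m} (hΩ : Generates Ω) : NoZero fun k => toBForm n (Ω k) := by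
  intro x hx v w hv hw hli
  by_contra hcon
  push Not at hcon
  have hli' : LinearIndependent ℂ ![(LE N).symm x, (LE N).symm v, (LE N).symm w] := by
    have h1 := hli.map' ((LE N).symm : EN N →ₗ[ℂ] (Fin (N + 1) → ℂ)) (LinearMap.ker_eq_bot.2 (LE N).symm.injective)
    have h2 : (⇑((LE N).symm : EN N →ₗ[ℂ] (Fin (N + 1) → ℂ)) ∘ ![x, v, w]) = ![(LE N).symm x, (LE N).symm v, (LE N).symm w] := by
      funext j
      fin_cases j <;> rfl
    rw [← h2]
    exact h1
  -- dual functionals
  obtain ⟨b, hb⟩ : ∃ b : Fin 3 → Fin (N + 1) → ℂ, b = ![(LE N).symm x, (LE N).symm v, (LE N).symm w] := ⟨_, rfl⟩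
  rw [← hb] at hli'
  obtain ⟨g, hg⟩ := (Fintype.linearCombination ℂ b).exists_leftInverse_of_injective
    (LinearMap.ker_eq_bot.2 (linearIndependent_iff_injective_fintypeLinearCombination.1 hli'))
  have hgb : ∀ i j, g (b j) i = if i = j then 1 else 0 := by
    intro i j
    have h1 := LinearMap.congr_fun hg (Pi.single j 1)
    simp only [LinearMap.comp_apply, LinearMap.id_apply, Fintype.linearCombination_apply_single, one_smul] at h1
    rw [h1, Pi.single_apply]
  obtain ⟨c, hc⟩ := hΩ ((LE N).symm x) hx (fun _ => (LinearMap.proj 1).comp g) (fun _ => (LinearMap.proj 2).comp g) (fun s => by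
    have h1 := hgb 1 0
    have h2 := hgb 2 0
    rw [hb] at h1 h2
    exact ⟨by simpa using h1, by simpa using h2⟩)
  have h1 := hc _ (conTan_of_tan hv) _ (conTan_of_tan hw)
  have h11 := hgb 1 1
  have h12 := hgb 1 2
  have h21 := hgb 2 1
  have h22 := hgb 2 2
  rw [hb] at h11 h12 h21 h22
  simp only [Matrix.cons_val_one, Matrix.cons_val_two, Matrix.cons_val_zero, Matrix.tail_cons, Matrix.head_cons, if_true] at h11 h12 h21 h22
  have h2 : ∑ k, c k * (Ω k).toFun ((LE N).symm x) ((LE N).symm v) ((LE N).symm w) = 0 :=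
    Finset.sum_eq_zero fun k _ => by
      have := hcon k
      change (Ω k).toFun ((LE N).symm x) ((LE N).symm v) ((LE N).symm w) = 0 at this
      rw [this, mul_zero]
  rw [h2] at h1
  have h3 : ∀ s : Fin m, ((LinearMap.proj 1 : (Fin 3 → ℂ) →ₗ[ℂ] ℂ).comp g) ((LE N).symm v) * ((LinearMap.proj 2 : (Fin 3 → ℂ) →ₗ[ℂ] ℂ).comp g) ((LE N).symm w) -
      ((LinearMap.proj 1 : (Fin 3 → ℂ) →ₗ[ℂ] ℂ).comp g) ((LE N).symm w) * ((LinearMap.proj 2 : (Fin 3 → ℂ) →ₗ[ℂ] ℂ).comp g) ((LE N).symm v) = 1 := by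
    intro s
    simp only [LinearMap.comp_apply, LinearMap.proj_apply]
    rw [h11, h22, h12, h21]
    simp
  rw [Finset.prod_congr rfl fun s _ => h3 s, Finset.prod_const_one] at h1
  exact one_ne_zero h1

end Pool.Agent.AD.P
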