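import Pool.Agent.AD.F.Kob
import Pool.Agent.AD.F.Pic
import Pool.Agent.AD.P.Bridge
import Pool.Agent.AD.V.Main
import Pool.Agent.H36.BP.Main
import Pool.Agent.H14.KB.KobFinal

/-!
# AD P Conv: from the cone to the projective space

* `extends_of_setup`: maps of the punctured disc extend, if they are not contained in a hypersurface which contains the curves of the setup.
* `kobayashi_of_setup`: the estimate of the derivative of discs.
* `brody_of_setup`: the entire curves.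
-/

set_option autoImplicit false

open MvPolynomial Topology Filter Metric

namespace Pool.Agent.AD.P

open Pool.Agent.H17 (PN VanishesAt HolomorphicInto ZariskiClosedIn puncturedDisc vanishesAt_mk_iff)
open Pool.Agent.H62.FC (Homog)
open Pool.Agent.H36.BP (EN fs wd Curve lift_disc lift_punct ofLp_ne_zero ne_zero_of_ofLp analyticAt_ofLp isOpen_puncturedDisc preconnected_puncturedDisc
  vanish_identity)
open Pool.Agent.H14.PP (IsCone)
open Pool.Agent.H17EF (projVar coneE LE mk_mem_projVar eval_smul_form prP prP_injective zariskiClosure)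
open Pool.Agent.H14.KB (KobayashiHyperbolicModulo)
open Pool.Agent.H62.EF (pr)
open Pool.Agent.H14.V (IsLift)
open Pool.Agent.AD.F (Setup vel)

variable {N : ℕ} {P : Ideal (MvPolynomial (Fin (N + 1)) ℂ)}

/-- the form as a function on the Euclidean space -/
noncomputable def fQ (Q : MvPolynomial (Fin (N + 1)) ℂ) (x : EN N) : ℂ := eval ((LE N).symm x) Q

theorem fQ_smul {Q : MvPolynomial (Fin (N + 1)) ℂ} {D : ℕ} (hQ : Q.IsHomogeneous D) (c : ℂ) (x : EN N) : fQ Q (c • x) = c ^ D * fQ Q x := by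
  unfold fQ
  rw [map_smul, eval_smul_form hQ]

theorem fQ_analytic (Q : MvPolynomial (Fin (N + 1)) ℂ) (x : EN N) : AnalyticAt ℂ (fQ Q) x := by
  have h1 : ∀ i, AnalyticAt ℂ (fun y : EN N => (LE N).symm y i) x := fun i =>
    ((ContinuousLinearMap.proj (R := ℂ) (φ := fun _ : Fin (N + 1) => ℂ) i).comp ((LE N).symm : EN N →L[ℂ] (Fin (N + 1) → ℂ))).analyticAt x
  refine (AnalyticAt.aeval_mvPolynomial h1 Q).congr (Eventually.of_forall fun y => ?_)
  exact congrArg (fun f : MvPolynomial (Fin (N + 1)) ℂ →+* ℂ => f Q) (MvPolynomial.coe_aeval_eq_eval ((LE N).symm y))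

theorem fQ_contDiff (Q : MvPolynomial (Fin (N + 1)) ℂ) : ContDiff ℂ 1 (fQ Q) := by
  rw [contDiff_iff_contDiffAt]
  exact fun x => (fQ_analytic Q x).contDiffAt

theorem vanishes_iff {Q : MvPolynomial (Fin (N + 1)) ℂ} {D : ℕ} (hQ : Q.IsHomogeneous D) {x : EN N} (h : x.ofLp ≠ 0) :
    VanishesAt Q (Projectivization.mk ℂ x.ofLp h) ↔ fQ Q x = 0 := vanishesAt_mk_iff hQ _ h

/-- **Extension.** -/
theorem extends_of_setup (hP : Homog P) (S : Setup (coneE P)) {Q : MvPolynomial (Fin (N + 1)) ℂ} {D : ℕ} (hQ : Q.IsHomogeneous D)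
    (hg : ∀ i w, fQ Q (S.g i w) = 0) (f : ℂ → PN N) (hf : HolomorphicInto f puncturedDisc)
    (hfX : ∀ z ∈ puncturedDisc, f z ∈ projVar P) (hfQ : ∃ z ∈ puncturedDisc, ¬ VanishesAt Q (f z)) :
    ∃ g : ℂ → PN N, HolomorphicInto g (ball 0 1) ∧ ∀ z ∈ puncturedDisc, g z = f z := by
  classical
  obtain ⟨F, hFd, hFf⟩ := lift_punct hf (r := 1 / 2) (by norm_num) (by norm_num)
  have hhalf : ∀ z ∈ ball (0 : ℂ) 1 \ {0}, z / 2 ∈ ball (0 : ℂ) (1 / 2) \ {0} := by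
    rintro z ⟨hz1, hz2⟩
    rw [mem_ball_zero_iff] at hz1
    refine ⟨?_, ?_⟩
    · rw [mem_ball_zero_iff, norm_div]
      simp only [Complex.norm_ofNat]
      linarith
    · simpa using hz2
  have hsubp : ball (0 : ℂ) (1 / 2) \ {0} ⊆ puncturedDisc := by
    rintro z ⟨hz1, hz2⟩
    exact ⟨ball_subset_ball (by norm_num) hz1, hz2⟩
  have hopen : IsOpen (ball (0 : ℂ) (1 / 2) \ {0}) := isOpen_ball.sdiff isClosed_singleton
  have hopen1 : IsOpen (ball (0 : ℂ) 1 \ {0}) := isOpen_ball.sdiff isClosed_singleton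
  obtain ⟨F₁, hF₁⟩ : ∃ F₁ : ℂ → EN N, F₁ = fun z => F (z / 2) := ⟨_, rfl⟩
  have hF₁2 : ∀ w : ℂ, F₁ (2 * w) = F w := by
    intro w
    rw [hF₁]
    simp only
    rw [mul_div_cancel_left₀ w (two_ne_zero)]
  have hF1c : Curve (coneE P) (ball 0 1 \ {0}) F₁ := by
    rw [hF₁]
    refine ⟨?_, ?_⟩
    · intro z hz
      have h1 : DifferentiableAt ℂ F (z / 2) := hFd.differentiableAt (hopen.mem_nhds (hhalf z hz))
      exact (h1.comp z (differentiableAt_id.div_const 2)).differentiableWithinAt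
    · intro z hz
      obtain ⟨h1, h2⟩ := hFf _ (hhalf z hz)
      have h3 := hfX _ (hsubp (hhalf z hz))
      rw [h2] at h3
      exact (mk_mem_projVar hP h1).1 h3
  -- the form does not vanish identically
  have hne : ∃ z ∈ ball (0 : ℂ) 1 \ {0}, fQ Q (F₁ z) ≠ 0 := by
    by_contra hcon
    push Not at hcon
    obtain ⟨z₁, hz₁, hz₁Q⟩ := hfQ
    apply hz₁Q
    have h4 : (1 / 4 : ℂ) ∈ ball (0 : ℂ) (1 / 2) \ {0} := by
      refine ⟨?_, by simp⟩
      rw [mem_ball_zero_iff]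
      norm_num
    refine vanish_identity preconnected_puncturedDisc hf (S := {Q}) (fun R hR => ⟨D, by rw [Set.mem_singleton_iff.1 hR]; exact hQ⟩) (hsubp h4) ?_ z₁ hz₁ Q rfl
    filter_upwards [hopen.mem_nhds h4] with w hw R hR
    rw [Set.mem_singleton_iff.1 hR]
    obtain ⟨h5, h6⟩ := hFf w hw
    rw [h6, vanishes_iff hQ h5, ← hF₁2]
    apply hcon
    refine ⟨?_, ?_⟩
    · have := hw.1
      rw [mem_ball_zero_iff] at this ⊢
      rw [norm_mul, Complex.norm_ofNat]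
      linarith
    · have h7 : w ≠ 0 := hw.2
      show 2 * w ≠ 0
      exact mul_ne_zero two_ne_zero h7
  obtain ⟨G, hGa, hG0, hG⟩ := Setup.picard S hF1c (Q := fQ Q) (fun x => (fQ_analytic Q x).differentiableAt) (D := D) (fQ_smul hQ) hg hne
  -- gluing
  obtain ⟨q₀, hq₀⟩ : ∃ q₀ : PN N, q₀ = Projectivization.mk ℂ (G 0).ofLp (ofLp_ne_zero hG0) := ⟨_, rfl⟩
  refine ⟨fun z => if z = 0 then q₀ else f z, ?_, ?_⟩
  · intro z hz
    by_cases hz0 : z = 0
    · subst hz0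
      refine ⟨fun w => (G (2 * w)).ofLp, ?_, ?_⟩
      · apply analyticAt_ofLp
        have h1 : AnalyticAt ℂ G ((fun w : ℂ => 2 * w) 0) := by simpa using hGa
        exact h1.comp (analyticAt_const.mul analyticAt_id)
      · have h2 : Tendsto (fun w : ℂ => 2 * w) (𝓝 0) (𝓝 0) := by
          have : Tendsto (fun w : ℂ => 2 * w) (𝓝 0) (𝓝 (2 * 0)) := (continuous_const.mul continuous_id).tendsto _
          rwa [mul_zero] at this
        have h3 : ∀ᶠ w in 𝓝 (0 : ℂ), w ≠ 0 → ∃ k : ℂ, k ≠ 0 ∧ G (2 * w) = k • F₁ (2 * w) := by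
          filter_upwards [h2.eventually (eventually_nhdsWithin_iff.mp hG)] with w hw hw0
          exact hw (by simpa using hw0)
        have h4 : ∀ᶠ w in 𝓝 (0 : ℂ), G (2 * w) ≠ 0 := by
          have h5 : ∀ᶠ y in 𝓝 (0 : ℂ), G y ≠ 0 := hGa.continuousAt.eventually_ne hG0
          exact h2.eventually h5
        filter_upwards [h3, h4, ball_mem_nhds (0 : ℂ) (show (0 : ℝ) < 1 / 2 by norm_num)] with w hw1 hw2 hw3
        refine ⟨ofLp_ne_zero hw2, ?_⟩
        by_cases hw0 : w = 0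
        · subst hw0
          simp only [if_true, hq₀, mul_zero]
        · rw [if_neg hw0]
          obtain ⟨k, hk0, hk⟩ := hw1 hw0
          rw [hF₁2] at hk
          obtain ⟨h5, h6⟩ := hFf w ⟨hw3, hw0⟩
          rw [h6, Projectivization.mk_eq_mk_iff']
          refine ⟨k⁻¹, ?_⟩
          rw [hk]
          show k⁻¹ • (k • (F w).ofLp) = _
          rw [smul_smul, inv_mul_cancel₀ hk0, one_smul]
    · obtain ⟨φ, hφ, he⟩ := hf z ⟨hz, hz0⟩
      refine ⟨φ, hφ, ?_⟩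
      filter_upwards [he, isOpen_ne.mem_nhds hz0] with w hw1 hw2
      rw [if_neg hw2]
      exact hw1
  · intro z hz
    have hz0 : z ≠ 0 := hz.2
    simp only
    rw [if_neg hz0]

/-- two lifts of the same map near a point have the same derivative in the projective space -/
theorem lift_ratio {f : ℂ → PN N} {F G : ℂ → EN N} {z : ℂ} (hF : AnalyticAt ℂ F z) (hG : AnalyticAt ℂ G z)
    (hFf : ∀ᶠ w in 𝓝 z, ∃ h : (F w).ofLp ≠ 0, f w = Projectivization.mk ℂ _ h)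
    (hGf : ∀ᶠ w in 𝓝 z, ∃ h : (G w).ofLp ≠ 0, f w = Projectivization.mk ℂ _ h) :
    fs (F z) (deriv F z) = fs (G z) (deriv G z) ∧ ∃ c : ℂ, c ≠ 0 ∧ F z = c • G z := by
  have hG0 : G z ≠ 0 := ne_zero_of_ofLp hGf.self_of_nhds.choose
  obtain ⟨j, hj⟩ : ∃ j, (G z) j ≠ 0 := by
    by_contra hcon
    push Not at hcon
    exact hG0 (by ext i; exact hcon i)
  have hc1 : AnalyticAt ℂ (fun w => G w j) z := analyticAt_pi_iff.mp (analyticAt_ofLp hG) j
  have hc2 : AnalyticAt ℂ (fun w => F w j) z := analyticAt_pi_iff.mp (analyticAt_ofLp hF) j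
  obtain ⟨k, hk⟩ : ∃ k : ℂ → ℂ, k = fun w => F w j / G w j := ⟨_, rfl⟩
  have hka : AnalyticAt ℂ k z := by
    rw [hk]
    exact hc2.div hc1 hj
  have hrel : ∀ᶠ w in 𝓝 z, F w = k w • G w ∧ k w ≠ 0 := by
    filter_upwards [hFf, hGf, hc1.continuousAt.eventually_ne hj] with w h1 h2 h3
    obtain ⟨h4, h5⟩ := h1
    obtain ⟨h6, h7⟩ := h2
    rw [h5, Projectivization.mk_eq_mk_iff'] at h7
    obtain ⟨a, ha⟩ := h7
    have ha' : ∀ i, a * G w i = F w i := fun i => congrFun ha i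
    have hka' : k w = a := by
      rw [hk]
      simp only
      rw [← ha' j]
      field_simp
    refine ⟨?_, ?_⟩
    · rw [hka']
      ext i
      exact (ha' i).symm
    · rw [hka']
      rintro rfl
      apply h4
      funext i
      rw [← ha' i, zero_mul]
      rfl
  have hd : HasDerivAt F (k z • deriv G z + deriv k z • G z) z := by
    have h1 : HasDerivAt (fun w => k w • G w) (k z • deriv G z + deriv k z • G z) z :=
      hka.differentiableAt.hasDerivAt.smul hG.differentiableAt.hasDerivAt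
    exact h1.congr_of_eventuallyEq (hrel.mono fun w hw => hw.1)
  have h0 := hrel.self_of_nhds
  refine ⟨?_, k z, h0.2, h0.1⟩
  rw [hd.deriv, h0.1]
  exact Pool.Agent.H36.BP.fs_inv hG0 _ h0.2 _

/-- the sup norm and the Euclidean norm -/
theorem norm_LE (N : ℕ) : ∃ K : ℝ, 1 ≤ K ∧ ∀ x : Fin (N + 1) → ℂ, ‖x‖ ≤ ‖LE N x‖ ∧ ‖LE N x‖ ≤ K * ‖x‖ := by
  refine ⟨max 1 ‖((LE N) : (Fin (N + 1) → ℂ) →L[ℂ] EN N)‖, le_max_left _ _, fun x => ⟨?_, ?_⟩⟩
  · refine (pi_norm_le_iff_of_nonneg (norm_nonneg _)).2 fun i => ?_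
    have h1 : (LE N x) i = x i := rfl
    rw [← h1]
    exact PiLp.norm_apply_le (LE N x) i
  · exact (((LE N) : (Fin (N + 1) → ℂ) →L[ℂ] EN N).le_opNorm x).trans (mul_le_mul_of_nonneg_right (le_max_right _ _) (norm_nonneg _))

/-- **The estimate for discs.** -/
theorem kobayashi_of_setup (hP : Homog P) (S : Setup (coneE P)) {Q : MvPolynomial (Fin (N + 1)) ℂ} {D : ℕ} (hQ : Q.IsHomogeneous D)
    (hg : ∀ i w, fQ Q (S.g i w) = 0) : KobayashiHyperbolicModulo (projVar P) Q D := by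
  obtain ⟨C', hC'⟩ := Setup.kob_eq S (fQ_contDiff Q) (D := D) (fQ_smul hQ) hg
  obtain ⟨K, hK, hKx⟩ := norm_LE N
  refine ⟨1, K ^ D * (2 * C') * K, fun f F hf hfX hF hFf => ?_⟩
  obtain ⟨F₁, hF1d, hF1f⟩ := lift_disc hf (r := 1 / 2) (by norm_num) (by norm_num)
  have h0mem : (0 : ℂ) ∈ ball (0 : ℂ) (1 / 2) := mem_ball_self (by norm_num)
  have hF1a : AnalyticAt ℂ F₁ 0 := hF1d.analyticAt (isOpen_ball.mem_nhds h0mem)
  have hF1X : ∀ z ∈ ball (0 : ℂ) (1 / 2), F₁ z ∈ coneE P := by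
    intro z hz
    obtain ⟨h1, h2⟩ := hF1f z hz
    have h3 := hfX z (ball_subset_ball (by norm_num) hz)
    rw [h2] at h3
    exact (mk_mem_projVar hP h1).1 h3
  have hcur : Curve (coneE P) (ball 0 1) (fun z => F₁ (z / 2)) := by
    have hh : ∀ z ∈ ball (0 : ℂ) 1, z / 2 ∈ ball (0 : ℂ) (1 / 2) := by
      intro z hz
      rw [mem_ball_zero_iff] at hz ⊢
      rw [norm_div]
      simp only [Complex.norm_ofNat]
      linarith
    refine ⟨fun z hz => ?_, fun z hz => hF1X _ (hh z hz)⟩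
    have h1 : DifferentiableAt ℂ F₁ (z / 2) := hF1d.differentiableAt (isOpen_ball.mem_nhds (hh z hz))
    exact (h1.comp z (differentiableAt_id.div_const 2)).differentiableWithinAt
  have hb := hC' _ hcur
  simp only [zero_div] at hb
  have hdz : HasDerivAt (fun z : ℂ => z / 2) (1 / 2) 0 := by simpa using (hasDerivAt_id (0 : ℂ)).div_const 2
  have hd1 : deriv (fun z => F₁ (z / 2)) 0 = (1 / 2 : ℂ) • deriv F₁ 0 := by
    have h1 : HasDerivAt F₁ (deriv F₁ 0) ((fun z : ℂ => z / 2) 0) := by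
      simpa using hF1a.differentiableAt.hasDerivAt
    exact (h1.scomp 0 hdz).deriv
  rw [hd1, Pool.Agent.H36.BP.fs_smul_right] at hb
  have hn : ‖(1 / 2 : ℂ)‖ = 1 / 2 := by norm_num
  rw [hn] at hb
  -- the given lift
  obtain ⟨E, hE⟩ : ∃ E : ℂ → EN N, E = fun z => LE N (F z) := ⟨_, rfl⟩
  have hEa : AnalyticAt ℂ E 0 := by
    rw [hE]
    exact (((LE N) : (Fin (N + 1) → ℂ) →L[ℂ] EN N).analyticAt _).comp hF
  have hEd : deriv E 0 = LE N (deriv F 0) := by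
    rw [hE]
    exact (((LE N) : (Fin (N + 1) → ℂ) →L[ℂ] EN N).hasFDerivAt.comp_hasDerivAt 0 hF.differentiableAt.hasDerivAt).deriv
  obtain ⟨hfs, c, hc, hcE⟩ := lift_ratio (f := f) (F := E) (G := F₁) hEa hF1a (by rw [hE]; exact hFf)
    (by filter_upwards [isOpen_ball.mem_nhds h0mem] with w hw using hF1f w hw)
  have hE0 : E 0 ≠ 0 := by
    rw [hcE]
    exact smul_ne_zero hc (ne_zero_of_ofLp (hF1f 0 h0mem).choose)
  have hnE : 0 < ‖E 0‖ := norm_pos_iff.2 hE0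
  have hnF1 : 0 < ‖F₁ 0‖ := norm_pos_iff.2 (ne_zero_of_ofLp (hF1f 0 h0mem).choose)
  have hq : ‖fQ Q (E 0)‖ / ‖E 0‖ ^ D = ‖fQ Q (F₁ 0)‖ / ‖F₁ 0‖ ^ D := by
    rw [hcE, fQ_smul hQ, norm_mul, norm_smul, mul_pow, norm_pow, mul_div_mul_left _ _ (pow_ne_zero _ (norm_ne_zero_iff.2 hc))]
  have hE00 : E 0 = LE N (F 0) := by rw [hE]
  have hQE : fQ Q (E 0) = eval (F 0) Q := by
    rw [hE00]
    unfold fQ
    rw [ContinuousLinearEquiv.symm_apply_apply]
  have hF0 : 0 < ‖F 0‖ := norm_pos_iff.2 (hFf.self_of_nhds).choose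
  refine ⟨inner ℂ (E 0) (deriv E 0) / (‖E 0‖ : ℂ) ^ 2, ?_⟩
  have h1 := Pool.Agent.H14.PP.fs_eq hE0 (deriv E 0)
  have h2 : ‖deriv F 0 - (inner ℂ (E 0) (deriv E 0) / (‖E 0‖ : ℂ) ^ 2) • F 0‖ ≤ fs (E 0) (deriv E 0) * ‖E 0‖ := by
    rw [h1, div_mul_cancel₀ _ hnE.ne']
    refine ((hKx _).1).trans (le_of_eq ?_)
    congr 1
    rw [map_sub, map_smul, ← hEd, ← hE00]
  have hx := hKx (F 0)
  rw [← hE00] at hx
  have h3 : ‖eval (F 0) Q‖ / ‖F 0‖ ^ D ≤ K ^ D * (‖fQ Q (E 0)‖ / ‖E 0‖ ^ D) := by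
    rw [hQE, ← mul_div_assoc, div_le_div_iff₀ (by positivity) (by positivity)]
    have h4 : ‖E 0‖ ^ D ≤ K ^ D * ‖F 0‖ ^ D := by
      rw [← mul_pow]
      exact pow_le_pow_left₀ (norm_nonneg _) hx.2 _
    calc ‖eval (F 0) Q‖ * ‖E 0‖ ^ D ≤ ‖eval (F 0) Q‖ * (K ^ D * ‖F 0‖ ^ D) := mul_le_mul_of_nonneg_left h4 (norm_nonneg _)
      _ = K ^ D * ‖eval (F 0) Q‖ * ‖F 0‖ ^ D := by ring
  have hfs0 : 0 ≤ fs (E 0) (deriv E 0) := Pool.Agent.H36.BP.fs_nonneg _ _
  rw [pow_one]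
  have hK0 : 0 < K := lt_of_lt_of_le one_pos hK
  have hb' : ‖fQ Q (E 0)‖ / ‖E 0‖ ^ D * fs (E 0) (deriv E 0) ≤ 2 * C' := by
    rw [hq, hfs]
    linarith
  have hC0 : 0 ≤ 2 * C' := le_trans (mul_nonneg (by positivity) hfs0) hb'
  calc ‖eval (F 0) Q‖ / ‖F 0‖ ^ D * ‖deriv F 0 - (inner ℂ (E 0) (deriv E 0) / (‖E 0‖ : ℂ) ^ 2) • F 0‖
      ≤ (K ^ D * (‖fQ Q (E 0)‖ / ‖E 0‖ ^ D)) * (fs (E 0) (deriv E 0) * ‖E 0‖) := mul_le_mul h3 h2 (norm_nonneg _) (by positivity)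
    _ = K ^ D * (‖fQ Q (E 0)‖ / ‖E 0‖ ^ D * fs (E 0) (deriv E 0)) * ‖E 0‖ := by ring
    _ ≤ K ^ D * (2 * C') * (K * ‖F 0‖) := by
        refine mul_le_mul (mul_le_mul_of_nonneg_left hb' (by positivity)) hx.2 (norm_nonneg _) (by positivity)
    _ = K ^ D * (2 * C') * K * ‖F 0‖ := by ring

/-- **The entire curves.** -/
theorem brody_of_setup (hP : Homog P) (S : Setup (coneE P)) {f : ℂ → PN N} (hf : HolomorphicInto f Set.univ) (hfX : ∀ z, f z ∈ projVar P)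
    (hfn : ∃ z w, f z ≠ f w) (z : ℂ) : ∃ (i : S.ι) (w : ℂ), prP (f z) = pr (S.g i w) := by
  obtain ⟨F, hF⟩ := Pool.Agent.H14.V.exists_isLift hf
  have hFX : ∀ z, F z ∈ coneE P := fun z => (hF.mem_iff hP z).1 (hfX z)
  have hpos : ∃ z, 0 < fs (F z) (deriv F z) := by
    by_contra hcon
    push Not at hcon
    have h0 : ∀ z, fs (F z) (deriv F z) = 0 := fun z => le_antisymm (hcon z) (Pool.Agent.H36.BP.fs_nonneg _ _)
    obtain ⟨z, w, hzw⟩ := hfn
    apply hzw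
    apply prP_injective
    rw [hF.prP, hF.prP]
    exact Pool.Agent.H14.V.pr_const hF.1 (fun z => hF.ne_zero z) h0 z w
  obtain ⟨i, w, h⟩ := Setup.brody S hF.1 hFX hpos z
  exact ⟨i, w, by rw [hF.prP, h]⟩

end Pool.Agent.AD.P
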