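import Pool.Agent.AD.P.Main
import Pool.Agent.AD.G.Main

/-!
# AD P Final: the theorem in all dimensions
-/

set_option autoImplicit false

open MvPolynomial Topology Filter Metric

namespace Pool.Agent.AD.P

open Pool.Agent.H17 (PN VanishesAt HolomorphicInto ZariskiClosedIn puncturedDisc)
open Pool.Agent.H62.FC (Homog)
open Pool.Agent.H17LG.Variety (FunField IsLogGeneralType)
open Pool.Agent.H13.SM (conTan)
open Pool.Agent.H13.OT (OrderTwo)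
open Pool.Agent.H17EF (projVar coneE GT zariskiClosure)
open Pool.Agent.H14.KB (KobayashiHyperbolicModulo)
open Pool.Agent.H22.W (PseudoLength)
open Pool.Agent.H14.V (brodyCurves DoublyPeriodic Degenerate IsNull)
open Pool.Agent.AD.G (BSec Generates)

variable {N : ℕ} {P : Ideal (MvPolynomial (Fin (N + 1)) ℂ)}

/-- curves with bounded distortion -/
theorem bd [P.IsPrime] {d : ℕ} {z : Fin d → FunField P} (hP : Homog P) (hz : IsTranscendenceBasis ℂ z)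
    (hsm : ∀ y : Fin (N + 1) → ℂ, y ≠ 0 → (∀ Q ∈ P, eval y Q = 0) → Module.finrank ℂ (conTan P y) ≤ d + 1)
    {m J : ℕ} (hm : 1 ≤ m) {Ω : Fin J → BSec P m} (hΩ : Generates Ω) {c : ℝ} (hc : 0 < c) (L : ℝ) :
    BDTheorem (coneE P) c L :=
  BDTheorem.of_pos hc fun hL => Pool.Agent.AD.BD.curves_of_bounded_distortion (isCone_coneE hP) (charts_coneE hP hz hsm) hm _
    (noZero_of_generates (n := d) hΩ) hc hL

/-- **The theorem in dimension `d ≥ 2`.** -/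
theorem conclusion [P.IsPrime] {d : ℕ} (hd : 2 ≤ d) {z : Fin d → FunField P} (hP : Homog P) (hz : IsTranscendenceBasis ℂ z)
    (hsm : ∀ y : Fin (N + 1) → ℂ, y ≠ 0 → (∀ Q ∈ P, eval y Q = 0) → Module.finrank ℂ (conTan P y) ≤ d + 1)
    {m J : ℕ} (hm : 1 ≤ m) {Ω : Fin J → BSec P m} (hΩ : Generates Ω)
    (ν : PseudoLength (coneE P)) (hNN : ∀ f ∈ brodyCurves (projVar P) 1, IsNull ν f → ∀ z w, f z = f w) :
    ∃ T : Set (ℂ → PN N), T.Finite ∧
      (∀ g ∈ T, HolomorphicInto g Set.univ ∧ (∀ z, g z ∈ projVar P) ∧ (∃ z w, g z ≠ g w) ∧ OrderTwo g ∧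
        DoublyPeriodic g ∧ Degenerate P g) ∧
      (∀ f : ℂ → PN N, HolomorphicInto f Set.univ → OrderTwo f → (∀ z, f z ∈ projVar P) → (∃ z w, f z ≠ f w) →
        ∃ g ∈ T, ∃ a b : ℂ, a ≠ 0 ∧ ∀ z, f z = g (a * z + b)) ∧
      (ZariskiClosedIn (projVar P) (⋃ g ∈ T, zariskiClosure g) ∧ (⋃ g ∈ T, zariskiClosure g) ≠ projVar P) ∧
      (∀ f : ℂ → PN N, HolomorphicInto f Set.univ → (∀ z, f z ∈ projVar P) → (∃ z w, f z ≠ f w) →
        ∀ z, f z ∈ (⋃ g ∈ T, zariskiClosure g)) ∧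
      (∀ f : ℂ → PN N, HolomorphicInto f puncturedDisc → (∀ z ∈ puncturedDisc, f z ∈ projVar P) →
        (∃ z ∈ puncturedDisc, f z ∉ (⋃ g ∈ T, zariskiClosure g)) →
        ∃ g : ℂ → PN N, HolomorphicInto g (Metric.ball 0 1) ∧ ∀ z ∈ puncturedDisc, g z = f z) ∧
      (∀ (Q : Ideal (MvPolynomial (Fin (N + 1)) ℂ)) [Q.IsPrime], Homog Q → P ≤ Q →
        ¬ projVar Q ⊆ (⋃ g ∈ T, zariskiClosure g) →
        ∀ k, 1 ≤ k → (∃ z : Fin k → FunField Q, IsTranscendenceBasis ℂ z) → GT Q k) ∧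
      (∃ (Q : MvPolynomial (Fin (N + 1)) ℂ) (D : ℕ), Q.IsHomogeneous D ∧ (∃ x ∈ projVar P, ¬ VanishesAt Q x) ∧
        KobayashiHyperbolicModulo (projVar P) Q D) ∧
      (∀ w, 1 ≤ w → (∃ z : Fin w → FunField P, IsTranscendenceBasis ℂ z) → GT P w) ∧
      -- additions: the values of the entire curves, the zeros of `Q`
      (∀ f : ℂ → PN N, HolomorphicInto f Set.univ → (∀ z, f z ∈ projVar P) → (∃ z w, f z ≠ f w) →
        ∀ z, ∃ g ∈ T, ∃ w, f z = g w) := by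
  have hst : ∀ (Q : Ideal (MvPolynomial (Fin (N + 1)) ℂ)) [Q.IsPrime], Homog Q → P ≤ Q → ∀ k, 2 ≤ k →
      (∃ z : Fin k → FunField Q, IsTranscendenceBasis ℂ z) → GT Q k := by
    intro Q _ hQ hPQ k hk ⟨z', hz'⟩
    exact Pool.Agent.AD.G.generalType_of_generates hm hΩ Q hQ hPQ hk hz'
  obtain ⟨T, h1, h2, h3, h4, h5, h6, h7, h8, Q, D, hQ, hQx, -, hkob⟩ := conclusion_of hd hP hz hsm hm hΩ hst ν hNN
  refine ⟨T, h1, h2, h3, h4, h6, h7, h8, ⟨Q, D, hQ, hQx, hkob⟩, fun w hw hz' => ?_, h5⟩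
  obtain ⟨z', hz'⟩ := hz'
  have e1 := hz.lift_cardinalMk_eq_trdeg
  have e2 := hz'.lift_cardinalMk_eq_trdeg
  rw [← e1] at e2
  have e3 : ((w : ℕ) : Cardinal.{0}) = ((d : ℕ) : Cardinal.{0}) := by simpa using e2
  obtain rfl : w = d := by exact_mod_cast e3
  exact hst P hP le_rfl w hd ⟨z', hz'⟩

end Pool.Agent.AD.P
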