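import Pool.Agent.AD.P.Conv
import Pool.Agent.AD.F.Asm
import Pool.Agent.H13.CV.Strong
import Pool.Agent.H17EF.Four

/-!
# AD P Main: the theorem in all dimensions

The finite set of curves, the exceptional set, entire curves, maps of the punctured disc, discs, subvarieties.
-/

set_option autoImplicit false

open MvPolynomial Topology Filter Metric

namespace Pool.Agent.AD.P

open Pool.Agent.H17 (PN VanishesAt HolomorphicInto ZariskiClosedIn puncturedDisc vanishesAt_mk_iff)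
open Pool.Agent.H62.FC (Homog)
open Pool.Agent.H17LG.Variety (FunField IsLogGeneralType)
open Pool.Agent.H13.SM (conTan cone)
open Pool.Agent.H13.OT (OrderTwo)
open Pool.Agent.H36.BP (EN fs wd Curve)
open Pool.Agent.H14.PP (IsCone)
open Pool.Agent.H17EF (projVar coneE LE GT prP prP_injective zariskiClosure)
open Pool.Agent.H14.KB (KobayashiHyperbolicModulo)
open Pool.Agent.H62.EF (pr)
open Pool.Agent.H22.W (PseudoLength)
open Pool.Agent.H14.V (IsLift boundedDistortion brodyCurves DoublyPeriodic Degenerate IsNull isLift_mk nonconstant_of orderTwo_of)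
open Pool.Agent.AD.F (Setup vel)
open Pool.Agent.AD.G (BSec Generates)

variable {N : ℕ} {P : Ideal (MvPolynomial (Fin (N + 1)) ℂ)}

/-- subvarieties of dimension one which are not contained in the exceptional set are of general type -/
theorem strongly_one {Ξ : Set (PN N)} (hΞ : ZariskiClosedIn (projVar P) Ξ)
    (hbr : ∀ f : ℂ → PN N, HolomorphicInto f Set.univ → (∀ z, f z ∈ projVar P) → (∃ z w, f z ≠ f w) → ∀ z, f z ∈ Ξ)
    (Q : Ideal (MvPolynomial (Fin (N + 1)) ℂ)) [Q.IsPrime] (hQ : Homog Q) (hPQ : P ≤ Q) (hQΞ : ¬ projVar Q ⊆ Ξ)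
    (hz' : ∃ z : Fin 1 → FunField Q, IsTranscendenceBasis ℂ z) : GT Q 1 := by
  have hsub : projVar Q ⊆ projVar P := fun x hx R hR n hn => hx R (hPQ hR) n hn
  have hX : ∃ i, (X i : MvPolynomial (Fin (N + 1)) ℂ) ∉ Q := by
    obtain ⟨x, hx, _⟩ := Set.not_subset.1 hQΞ
    by_contra hcon
    push Not at hcon
    apply x.rep_nonzero
    funext i
    have h1 : VanishesAt (X i : MvPolynomial (Fin (N + 1)) ℂ) x := hx _ (hcon i) 1 (isHomogeneous_X ℂ i)
    have h2 : eval x.rep (X i : MvPolynomial (Fin (N + 1)) ℂ) = 0 := h1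
    rw [eval_X] at h2
    exact h2
  have hl : IsLogGeneralType (Pool.Agent.H62.SA.OnBd Q (fun _ : Fin 1 => (1 : MvPolynomial (Fin (N + 1)) ℂ)) (k := 1)) := by
    by_contra hl
    obtain ⟨f, hf, hfQ, hne⟩ := Pool.Agent.H13.CV.exists_entire_of_not_lgtL Q hX hz' (G := fun _ : Fin 1 => (1 : MvPolynomial (Fin (N + 1)) ℂ))
      (fun _ => ⟨0, isHomogeneous_one _ _⟩) hl
    rw [Pool.Agent.H17EF.locVar_one] at hfQ
    have hΞf : ∀ z, f z ∈ Ξ := hbr f hf (fun z => hsub (hfQ z)) hne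
    obtain ⟨S, hS, hSΞ⟩ := hΞ
    apply hQΞ
    intro x hx
    rw [hSΞ]
    refine ⟨hsub hx, fun R hR => ?_⟩
    obtain ⟨n, hn⟩ := hS R hR
    have hRf : ∀ z, VanishesAt R (f z) := by
      intro z
      have h3 := hΞf z
      rw [hSΞ] at h3
      exact h3.2 R hR
    exact hx R (Pool.Agent.H13.CV.form_of_curve0 Q hQ hz' hf hfQ hne hn hRf) n hn
  rw [Pool.Agent.H17EF.onBd_one] at hl
  exact hl

/-- the curves of the setup, in the projective space -/
theorem setup_curve (hP : Homog P) (S : Setup (coneE P)) (i : S.ι) : ∃ f : ℂ → PN N, IsLift (S.g i) f ∧ HolomorphicInto f Set.univ ∧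
    OrderTwo f ∧ (∀ z, f z ∈ projVar P) ∧ ∃ z w, f z ≠ f w := by
  have h0 : ∀ z, (S.g i z).ofLp ≠ 0 := fun z => (S.mem i z).1
  have hl := isLift_mk (S.entire i) h0
  have hC0 : 0 < S.C := by linarith [S.C_ge]
  have hup : ∀ z, fs (S.g i z) (deriv (S.g i) z) ≤ S.C := by
    intro z
    have h1 := S.zal (fun w => S.g i (w + z)) ⟨((S.entire i).comp (differentiable_id.add_const z)).differentiableOn, fun w _ => S.mem i _⟩
      (fun w _ => by
        unfold vel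
        rw [deriv_comp_add_const]
        exact (S.unit i (w + z)).le)
    rw [deriv_comp_add_const] at h1
    simpa using h1
  have hlow : ∀ z, S.C⁻¹ ≤ fs (S.g i z) (deriv (S.g i) z) := by
    intro z
    have h1 := S.bound _ _ (Pool.Agent.H14.V.tan_of_curve (S.entire i) (S.mem i) z)
    have h2 := S.unit i z
    unfold vel at h2
    rw [h2] at h1
    rw [inv_le_iff_one_le_mul₀ hC0, mul_comm]
    exact h1
  exact ⟨_, hl, hl.holomorphicInto, orderTwo_of hl hup, fun z => (hl.mem_iff hP z).2 (S.mem i z), nonconstant_of hl (inv_pos.2 hC0) hlow⟩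

/-- **The theorem, for a family of curves which contains all the nonconstant entire curves of order two.** -/
theorem four [P.IsPrime] (hP : Homog P) (S : Setup (coneE P)) {T : Set (ℂ → PN N)}
    (hall : ∀ f : ℂ → PN N, HolomorphicInto f Set.univ → OrderTwo f → (∀ z, f z ∈ projVar P) → (∃ z w, f z ≠ f w) →
        ∃ g ∈ T, ∃ a b : ℂ, a ≠ 0 ∧ ∀ z, f z = g (a * z + b))
    (hcl : ZariskiClosedIn (projVar P) (⋃ g ∈ T, zariskiClosure g)) (hne : (⋃ g ∈ T, zariskiClosure g) ≠ projVar P)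
    (hst : ∀ (Q : Ideal (MvPolynomial (Fin (N + 1)) ℂ)) [Q.IsPrime], Homog Q → P ≤ Q → ∀ k, 2 ≤ k →
      (∃ z : Fin k → FunField Q, IsTranscendenceBasis ℂ z) → GT Q k) :
    (∀ f : ℂ → PN N, HolomorphicInto f Set.univ → (∀ z, f z ∈ projVar P) → (∃ z w, f z ≠ f w) →
        ∀ z, ∃ g ∈ T, ∃ w, f z = g w) ∧
      (∀ f : ℂ → PN N, HolomorphicInto f Set.univ → (∀ z, f z ∈ projVar P) → (∃ z w, f z ≠ f w) →
        ∀ z, f z ∈ (⋃ g ∈ T, zariskiClosure g)) ∧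
      (∀ f : ℂ → PN N, HolomorphicInto f puncturedDisc → (∀ z ∈ puncturedDisc, f z ∈ projVar P) →
        (∃ z ∈ puncturedDisc, f z ∉ (⋃ g ∈ T, zariskiClosure g)) →
        ∃ g : ℂ → PN N, HolomorphicInto g (Metric.ball 0 1) ∧ ∀ z ∈ puncturedDisc, g z = f z) ∧
      (∀ (Q : Ideal (MvPolynomial (Fin (N + 1)) ℂ)) [Q.IsPrime], Homog Q → P ≤ Q →
        ¬ projVar Q ⊆ (⋃ g ∈ T, zariskiClosure g) →
        ∀ k, 1 ≤ k → (∃ z : Fin k → FunField Q, IsTranscendenceBasis ℂ z) → GT Q k) ∧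
      ∃ (Q : MvPolynomial (Fin (N + 1)) ℂ) (D : ℕ), Q.IsHomogeneous D ∧ (∃ x ∈ projVar P, ¬ VanishesAt Q x) ∧
        (∀ x ∈ (⋃ g ∈ T, zariskiClosure g), VanishesAt Q x) ∧
        KobayashiHyperbolicModulo (projVar P) Q D := by
  have hsub : ∀ (i : S.ι) (w : ℂ) (x : PN N), prP x = pr (S.g i w) → ∃ g ∈ T, ∃ w', x = g w' := by
    intro i w x hx
    obtain ⟨f, hl, hf, hfo, hfX, hfn⟩ := setup_curve hP S i
    obtain ⟨g, hg, a, b, -, h⟩ := hall f hf hfo hfX hfn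
    refine ⟨g, hg, a * w + b, ?_⟩
    rw [← h]
    apply prP_injective
    rw [hx, hl.prP]
  have hmem : ∀ x : PN N, (∃ g ∈ T, ∃ w, x = g w) → x ∈ (⋃ g ∈ T, zariskiClosure g) := by
    rintro x ⟨g, hg, w, rfl⟩
    exact Set.mem_biUnion hg (fun Q n _ hQ => hQ _)
  have hbr' : ∀ f : ℂ → PN N, HolomorphicInto f Set.univ → (∀ z, f z ∈ projVar P) → (∃ z w, f z ≠ f w) →
        ∀ z, ∃ g ∈ T, ∃ w, f z = g w := by
    intro f hf hfX hfn z
    obtain ⟨i, w, h⟩ := brody_of_setup hP S hf hfX hfn z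
    exact hsub i w _ h
  have hbr : ∀ f : ℂ → PN N, HolomorphicInto f Set.univ → (∀ z, f z ∈ projVar P) → (∃ z w, f z ≠ f w) →
        ∀ z, f z ∈ (⋃ g ∈ T, zariskiClosure g) := fun f hf hfX hfn z => hmem _ (hbr' f hf hfX hfn z)
  -- forms vanishing on the exceptional set vanish on the curves of the setup
  have hvan : ∀ {Q : MvPolynomial (Fin (N + 1)) ℂ} {D : ℕ}, Q.IsHomogeneous D → (∀ x ∈ (⋃ g ∈ T, zariskiClosure g), VanishesAt Q x) →
      ∀ i w, fQ Q (S.g i w) = 0 := by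
    intro Q D hQ hQx i w
    have h0 : (S.g i w).ofLp ≠ 0 := (S.mem i w).1
    rw [← vanishes_iff hQ h0]
    apply hQx
    apply hmem
    apply hsub i w
    exact Pool.Agent.H17EF.mk_symm (F := S.g i w) h0
  refine ⟨hbr', hbr, ?_, ?_, ?_⟩
  · intro f hf hfX hfn
    obtain ⟨z₀, hz₀, hz₀n⟩ := hfn
    obtain ⟨S', hS', hSΞ⟩ := hcl
    obtain ⟨Q, hQS, hQz⟩ : ∃ Q ∈ S', ¬ VanishesAt Q (f z₀) := by
      by_contra hcon
      push Not at hcon
      apply hz₀n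
      rw [hSΞ]
      exact ⟨hfX _ hz₀, hcon⟩
    obtain ⟨D, hQ⟩ := hS' Q hQS
    refine extends_of_setup hP S hQ (hvan hQ ?_) f hf hfX ⟨z₀, hz₀, hQz⟩
    intro x hx
    rw [hSΞ] at hx
    exact hx.2 Q hQS
  · intro Q _ hQ hPQ hQΞ k hk hz'
    rcases Nat.lt_or_ge 1 k with h | h
    · exact hst Q hQ hPQ k h hz'
    · obtain rfl : k = 1 := le_antisymm h hk
      exact strongly_one hcl hbr Q hQ hPQ hQΞ hz'
  · obtain ⟨S', hS', hSΞ⟩ := hcl
    obtain ⟨x, hx, Q, hQS, hQx⟩ : ∃ x ∈ projVar P, ∃ R ∈ S', ¬ VanishesAt R x := by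
      by_contra hcon
      push Not at hcon
      apply hne
      rw [hSΞ]
      exact Set.Subset.antisymm (fun x hx => hx.1) fun x hx => ⟨hx, hcon x hx⟩
    obtain ⟨D, hQ⟩ := hS' Q hQS
    have hQv : ∀ x ∈ (⋃ g ∈ T, zariskiClosure g), VanishesAt Q x := by
      intro y hy
      rw [hSΞ] at hy
      exact hy.2 Q hQS
    exact ⟨Q, D, hQ, ⟨x, hx, hQx⟩, hQv, kobayashi_of_setup hP S hQ (hvan hQ hQv)⟩

/-- **The theorem in dimension `d ≥ 2`.** -/
theorem conclusion_of [P.IsPrime] {d : ℕ} (hd : 2 ≤ d) {z : Fin d → FunField P} (hP : Homog P) (hz : IsTranscendenceBasis ℂ z)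
    (hsm : ∀ y : Fin (N + 1) → ℂ, y ≠ 0 → (∀ Q ∈ P, eval y Q = 0) → Module.finrank ℂ (conTan P y) ≤ d + 1)
    {m J : ℕ} (hm : 1 ≤ m) {Ω : Fin J → BSec P m} (hΩ : Generates Ω)
    (hst : ∀ (Q : Ideal (MvPolynomial (Fin (N + 1)) ℂ)) [Q.IsPrime], Homog Q → P ≤ Q → ∀ k, 2 ≤ k →
      (∃ z : Fin k → FunField Q, IsTranscendenceBasis ℂ z) → GT Q k)
    (n : PseudoLength (coneE P)) (hNN : ∀ f ∈ brodyCurves (projVar P) 1, IsNull n f → ∀ z w, f z = f w) :
    ∃ T : Set (ℂ → PN N), T.Finite ∧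
      (∀ g ∈ T, HolomorphicInto g Set.univ ∧ (∀ z, g z ∈ projVar P) ∧ (∃ z w, g z ≠ g w) ∧ OrderTwo g ∧
        DoublyPeriodic g ∧ Degenerate P g) ∧
      (∀ f : ℂ → PN N, HolomorphicInto f Set.univ → OrderTwo f → (∀ z, f z ∈ projVar P) → (∃ z w, f z ≠ f w) →
        ∃ g ∈ T, ∃ a b : ℂ, a ≠ 0 ∧ ∀ z, f z = g (a * z + b)) ∧
      (ZariskiClosedIn (projVar P) (⋃ g ∈ T, zariskiClosure g) ∧ (⋃ g ∈ T, zariskiClosure g) ≠ projVar P) ∧
      (∀ f : ℂ → PN N, HolomorphicInto f Set.univ → (∀ z, f z ∈ projVar P) → (∃ z w, f z ≠ f w) →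
        ∀ z, ∃ g ∈ T, ∃ w, f z = g w) ∧
      (∀ f : ℂ → PN N, HolomorphicInto f Set.univ → (∀ z, f z ∈ projVar P) → (∃ z w, f z ≠ f w) →
        ∀ z, f z ∈ (⋃ g ∈ T, zariskiClosure g)) ∧
      (∀ f : ℂ → PN N, HolomorphicInto f puncturedDisc → (∀ z ∈ puncturedDisc, f z ∈ projVar P) →
        (∃ z ∈ puncturedDisc, f z ∉ (⋃ g ∈ T, zariskiClosure g)) →
        ∃ g : ℂ → PN N, HolomorphicInto g (Metric.ball 0 1) ∧ ∀ z ∈ puncturedDisc, g z = f z) ∧
      (∀ (Q : Ideal (MvPolynomial (Fin (N + 1)) ℂ)) [Q.IsPrime], Homog Q → P ≤ Q →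
        ¬ projVar Q ⊆ (⋃ g ∈ T, zariskiClosure g) →
        ∀ k, 1 ≤ k → (∃ z : Fin k → FunField Q, IsTranscendenceBasis ℂ z) → GT Q k) ∧
      ∃ (Q : MvPolynomial (Fin (N + 1)) ℂ) (D : ℕ), Q.IsHomogeneous D ∧ (∃ x ∈ projVar P, ¬ VanishesAt Q x) ∧
        (∀ x ∈ (⋃ g ∈ T, zariskiClosure g), VanishesAt Q x) ∧
        KobayashiHyperbolicModulo (projVar P) Q D := by
  have hX := isCone_coneE hP
  have hch := charts_coneE hP hz hsm
  have hnz := noZero_of_generates (n := d) hΩ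
  obtain ⟨c, L, -, -, T, hT, -, -, hell, hall, hcl, hne⟩ := exists_curves_w hd hP hz hsm
    (fun c L hc hL => Pool.Agent.AD.BD.curves_of_bounded_distortion hX hch hm _ hnz hc hL) n hNN
  obtain ⟨S, -⟩ := Pool.Agent.AD.F.exists_setup hX hch hm _ hnz n (noNullBrody_of hP hNN)
  exact ⟨T, hT, hell, hall, ⟨hcl, hne⟩, four hP S hall hcl hne hst⟩

end Pool.Agent.AD.P
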